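import Pool.Agent.R769.KP.Sep

/-!
# A single level of an arrangement of lines that pass through few points

`height`, `level`, `kLevel`, `IsVertex` and `complexity` are defined in
`Pool/Agent/KLev/Levels.lean` (namespace `KLev.Levels`): a line is a pair (slope, intercept), the
`k`-level is the closure of the set of points on the lines with exactly `k` lines strictly below,
and its complexity is the number of the points where it passes from one line to another.
No general position is assumed: many lines may be concurrent or parallel.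

Proof idea.  The vertices to the right of a point `o` at which two lines separated by `o` meet are
mapped by the projective map `(x, y) ↦ (1 / (x - o₁), (y - o₂) / (x - o₁))` to vertices of the
`k`-level of the image arrangement at which a line of positive and a line of negative slope meet;
there are at most `2 k + 1` such vertices (starting file `Pool/Agent/Y375/FD/Upper.lean`).
-/

set_option autoImplicit false

namespace Pool.Agent.Results.MP_a08d0a_co.FewPencils

open KLev.Levels Pool.Agent.Y375.FD Pool.Agent.R769.KP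

/-- one of the lines `l`, `m` passes strictly below the point `o`, the other one strictly above -/
def PointSeparates (o l m : ℝ × ℝ) : Prop :=
  (height l o.1 < o.2 ∧ o.2 < height m o.1) ∨ (height m o.1 < o.2 ∧ o.2 < height l o.1)

/-- one of the lines `l`, `m` has slope less than `τ`, the other one greater than `τ` -/
def SlopeSeparates (τ : ℝ) (l m : ℝ × ℝ) : Prop :=
  (l.1 < τ ∧ τ < m.1) ∨ (m.1 < τ ∧ τ < l.1)

theorem cover {Γ : Finset (ℝ × ℝ)} {k : ℕ} (A Q : Finset (ℝ × ℝ)) (S : Finset ℝ)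
    (hQ : ∀ o ∈ Q, ∀ l ∈ Γ, height l o.1 ≠ o.2) (hS : ∀ τ ∈ S, ∀ l ∈ Γ, l.1 ≠ τ)
    (h : ∀ p l m, V Γ k p l m →
      p ∈ A ∨ (∃ o ∈ Q, PointSeparates o l m) ∨ ∃ τ ∈ S, SlopeSeparates τ l m) :
    complexity Γ k ≤ A.card + Q.card * (2 * (2 * min k (Γ.card - 1 - k) + 1)) +
      S.card * (2 * min k (Γ.card - 1 - k) + 1) := by
  classical
  set μ := min k (Γ.card - 1 - k) with hμ
  have hsub : {p | IsVertex Γ k p} ⊆
      ((A : Set (ℝ × ℝ)) ∪ ⋃ o ∈ Q, Sep Γ k o) ∪ ⋃ τ ∈ S, VT Γ k τ := by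
    intro p hp
    obtain ⟨l, m, hV⟩ := V_of_isVertex hp
    rcases h p l m hV with h1 | ⟨o, ho, h1⟩ | ⟨τ, hτ, h1⟩
    · exact Or.inl (Or.inl h1)
    · refine Or.inl (Or.inr ?_)
      rw [Set.mem_iUnion₂]
      exact ⟨o, ho, l, m, hV, h1⟩
    · refine Or.inr ?_
      rw [Set.mem_iUnion₂]
      exact ⟨τ, hτ, l, m, hV, h1.symm⟩
  have f1 : (⋃ o ∈ Q, Sep Γ k o).Finite :=
    Set.Finite.biUnion (Finset.finite_toSet Q) (fun o ho => (sep_min (hQ o ho)).1)
  have f2 : (⋃ τ ∈ S, VT Γ k τ).Finite :=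
    Set.Finite.biUnion (Finset.finite_toSet S) (fun τ hτ => (vt_min (hS τ hτ)).1)
  have c1 : (⋃ o ∈ Q, Sep Γ k o).ncard ≤ Q.card * (2 * (2 * μ + 1)) := by
    calc (⋃ o ∈ Q, Sep Γ k o).ncard ≤ ∑ o ∈ Q, (Sep Γ k o).ncard :=
          Finset.set_ncard_biUnion_le Q _
      _ ≤ ∑ o ∈ Q, (2 * (2 * μ + 1)) := Finset.sum_le_sum (fun o ho => (sep_min (hQ o ho)).2)
      _ = _ := by simp
  have c2 : (⋃ τ ∈ S, VT Γ k τ).ncard ≤ S.card * (2 * μ + 1) := by
    calc (⋃ τ ∈ S, VT Γ k τ).ncard ≤ ∑ τ ∈ S, (VT Γ k τ).ncard :=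
          Finset.set_ncard_biUnion_le S _
      _ ≤ ∑ τ ∈ S, (2 * μ + 1) := Finset.sum_le_sum (fun τ hτ => (vt_min (hS τ hτ)).2)
      _ = _ := by simp
  have hfin : (((A : Set (ℝ × ℝ)) ∪ ⋃ o ∈ Q, Sep Γ k o) ∪ ⋃ τ ∈ S, VT Γ k τ).Finite :=
    ((Finset.finite_toSet A).union f1).union f2
  unfold complexity
  refine (Set.ncard_le_ncard hsub hfin).trans ?_
  refine (Set.ncard_union_le _ _).trans ?_
  refine Nat.add_le_add ((Set.ncard_union_le _ _).trans ?_) c2
  refine Nat.add_le_add ?_ c1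
  rw [Set.ncard_coe_finset]

theorem exists_eps (F : Finset ℝ) : ∃ ε : ℝ, 0 < ε ∧ ∀ x ∈ F, x ≠ 0 → ε < |x| := by
  classical
  induction F using Finset.induction_on with
  | empty => exact ⟨1, one_pos, by simp⟩
  | insert a F _ ih =>
    obtain ⟨ε, h0, h1⟩ := ih
    by_cases ha : a = 0
    · refine ⟨ε, h0, fun x hx hx0 => ?_⟩
      rcases Finset.mem_insert.mp hx with rfl | hx
      · exact absurd ha hx0
      · exact h1 x hx hx0
    · have hpos : 0 < |a| := abs_pos.mpr ha
      refine ⟨min ε (|a| / 2), lt_min h0 (by linarith), fun x hx hx0 => ?_⟩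
      rcases Finset.mem_insert.mp hx with rfl | hx
      · exact lt_of_le_of_lt (min_le_right _ _) (by linarith)
      · exact lt_of_le_of_lt (min_le_left _ _) (h1 x hx hx0)

theorem pencils (Γ : Finset (ℝ × ℝ)) (k : ℕ) (Q : Finset (ℝ × ℝ)) (S : Finset ℝ)
    (h : ∀ l ∈ Γ, (∃ q ∈ Q, height l q.1 = q.2) ∨ l.1 ∈ S) :
    complexity Γ k ≤ Q.card * (8 * min k (Γ.card - 1 - k) + 5) +
      S.card * (4 * min k (Γ.card - 1 - k) + 2) := by
  classical
  obtain ⟨ε, h0, hε⟩ := exists_eps (((Γ ×ˢ Q).image (fun z => height z.1 z.2.1 - z.2.2)) ∪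
    ((Γ ×ˢ S).image (fun z => z.1.1 - z.2)))
  have hεQ : ∀ l ∈ Γ, ∀ q ∈ Q, height l q.1 ≠ q.2 → ε < |height l q.1 - q.2| := by
    intro l hl q hq hne
    apply hε _ (Finset.mem_union_left _ _) (sub_ne_zero.mpr hne)
    exact Finset.mem_image.mpr ⟨(l, q), Finset.mem_product.mpr ⟨hl, hq⟩, rfl⟩
  have hεS : ∀ l ∈ Γ, ∀ σ ∈ S, l.1 ≠ σ → ε < |l.1 - σ| := by
    intro l hl σ hσ hne
    apply hε _ (Finset.mem_union_right _ _) (sub_ne_zero.mpr hne)
    exact Finset.mem_image.mpr ⟨(l, σ), Finset.mem_product.mpr ⟨hl, hσ⟩, rfl⟩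
  set Q' : Finset (ℝ × ℝ) := Q.image (fun q => (q.1, q.2 + ε)) ∪ Q.image (fun q => (q.1, q.2 - ε))
    with hQ'
  set S' : Finset ℝ := S.image (fun σ => σ + ε) ∪ S.image (fun σ => σ - ε) with hS'
  have cQ : Q'.card ≤ 2 * Q.card := by
    refine (Finset.card_union_le _ _).trans ?_
    have h1 := Finset.card_image_le (s := Q) (f := fun q : ℝ × ℝ => (q.1, q.2 + ε))
    have h2 := Finset.card_image_le (s := Q) (f := fun q : ℝ × ℝ => (q.1, q.2 - ε))
    omega
  have cS : S'.card ≤ 2 * S.card := by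
    refine (Finset.card_union_le _ _).trans ?_
    have h1 := Finset.card_image_le (s := S) (f := fun σ : ℝ => σ + ε)
    have h2 := Finset.card_image_le (s := S) (f := fun σ : ℝ => σ - ε)
    omega
  have hQn : ∀ o ∈ Q', ∀ l ∈ Γ, height l o.1 ≠ o.2 := by
    intro o ho l hl heq
    rw [hQ', Finset.mem_union, Finset.mem_image, Finset.mem_image] at ho
    rcases ho with ⟨q, hq, rfl⟩ | ⟨q, hq, rfl⟩
    · have heq' : height l q.1 = q.2 + ε := heq
      have hne : height l q.1 ≠ q.2 := by rw [heq']; linarith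
      have h1 := hεQ l hl q hq hne
      rw [heq', show q.2 + ε - q.2 = ε by ring, abs_of_pos h0] at h1
      exact lt_irrefl _ h1
    · have heq' : height l q.1 = q.2 - ε := heq
      have hne : height l q.1 ≠ q.2 := by
        rw [heq']
        intro h2
        linarith
      have h1 := hεQ l hl q hq hne
      rw [heq', show q.2 - ε - q.2 = -ε by ring, abs_neg, abs_of_pos h0] at h1
      exact lt_irrefl _ h1
  have hSn : ∀ τ ∈ S', ∀ l ∈ Γ, l.1 ≠ τ := by
    intro τ hτ l hl heq
    rw [hS', Finset.mem_union, Finset.mem_image, Finset.mem_image] at hτ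
    rcases hτ with ⟨σ, hσ, rfl⟩ | ⟨σ, hσ, rfl⟩
    · have hne : l.1 ≠ σ := by rw [heq]; linarith
      have h1 := hεS l hl σ hσ hne
      rw [heq, show σ + ε - σ = ε by ring, abs_of_pos h0] at h1
      exact lt_irrefl _ h1
    · have hne : l.1 ≠ σ := by
        rw [heq]
        intro h2
        linarith
      have h1 := hεS l hl σ hσ hne
      rw [heq, show σ - ε - σ = -ε by ring, abs_neg, abs_of_pos h0] at h1
      exact lt_irrefl _ h1
  have hcov : ∀ p l m, V Γ k p l m →
      p ∈ Q ∨ (∃ o ∈ Q', PointSeparates o l m) ∨ ∃ τ ∈ S', SlopeSeparates τ l m := by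
    rintro p l m ⟨hl, hm, hlm, hlp, hmp, -, -⟩
    have hsl := slope_ne hlm hlp hmp
    rcases h l hl with ⟨q, hq, hlq⟩ | hσ
    · by_cases hmq : height m q.1 = q.2
      · left
        have e1 : (l.1 - m.1) * (p.1 - q.1) = 0 := by
          unfold height at hlp hmp hlq hmq
          linear_combination hlp - hmp - hlq + hmq
        have e2 : p.1 = q.1 := by
          rcases mul_eq_zero.mp e1 with h1 | h1
          · exact absurd (sub_eq_zero.mp h1) hsl
          · linarith
        have e3 : p = q := by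
          refine Prod.ext e2 ?_
          rw [← hlp, e2, hlq]
        rw [e3]
        exact hq
      · right; left
        have h1 := hεQ m hm q hq hmq
        rcases lt_or_gt_of_ne hmq with h2 | h2
        · refine ⟨(q.1, q.2 - ε), ?_, Or.inr ⟨?_, ?_⟩⟩
          · rw [hQ']
            exact Finset.mem_union_right _ (Finset.mem_image_of_mem _ hq)
          · show height m q.1 < q.2 - ε
            rw [abs_of_neg (by linarith)] at h1
            linarith
          · show q.2 - ε < height l q.1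
            rw [hlq]
            linarith
        · refine ⟨(q.1, q.2 + ε), ?_, Or.inl ⟨?_, ?_⟩⟩
          · rw [hQ']
            exact Finset.mem_union_left _ (Finset.mem_image_of_mem _ hq)
          · show height l q.1 < q.2 + ε
            rw [hlq]
            linarith
          · show q.2 + ε < height m q.1
            rw [abs_of_pos (by linarith)] at h1
            linarith
    · right; right
      have h1 := hεS m hm l.1 hσ (Ne.symm hsl)
      rcases lt_or_gt_of_ne hsl with h2 | h2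
      · refine ⟨l.1 + ε, ?_, Or.inl ⟨by linarith, ?_⟩⟩
        · rw [hS']
          exact Finset.mem_union_left _ (Finset.mem_image_of_mem _ hσ)
        · rw [abs_of_pos (by linarith)] at h1
          linarith
      · refine ⟨l.1 - ε, ?_, Or.inr ⟨?_, by linarith⟩⟩
        · rw [hS']
          exact Finset.mem_union_right _ (Finset.mem_image_of_mem _ hσ)
        · rw [abs_of_neg (by linarith)] at h1
          linarith
  refine (cover Q Q' S' hQn hSn hcov).trans ?_
  set μ := min k (Γ.card - 1 - k) with hμ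
  have e1 : Q'.card * (2 * (2 * μ + 1)) ≤ (2 * Q.card) * (2 * (2 * μ + 1)) :=
    Nat.mul_le_mul_right _ cQ
  have e2 : S'.card * (2 * μ + 1) ≤ (2 * S.card) * (2 * μ + 1) := Nat.mul_le_mul_right _ cS
  calc Q.card + Q'.card * (2 * (2 * μ + 1)) + S'.card * (2 * μ + 1) ≤
        Q.card + (2 * Q.card) * (2 * (2 * μ + 1)) + (2 * S.card) * (2 * μ + 1) :=
        Nat.add_le_add (Nat.add_le_add_left e1 _) e2
    _ = _ := by ring

/-- Let `Γ` be a finite set of lines and `μ = min (k, |Γ| - 1 - k)`.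
1. If every line of `Γ` passes through one of the points of a set `Q` or has one of the slopes of a
   set `S`, the `k`-level of `Γ` has at most `|Q| (8 μ + 5) + |S| (4 μ + 2)` vertices.
2. If every two non-parallel lines of `Γ` are separated by one of the points of `Q`, none of them on
   a line of `Γ`, or by one of the slopes of `S`, none of them the slope of a line of `Γ`, the
   `k`-level of `Γ` has at most `(2 |Q| + |S|) (2 μ + 1)` vertices. -/
theorem result : ∀ (Γ : Finset (ℝ × ℝ)) (k : ℕ) (Q : Finset (ℝ × ℝ)) (S : Finset ℝ),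
    ((∀ l ∈ Γ, (∃ q ∈ Q, height l q.1 = q.2) ∨ l.1 ∈ S) →
      complexity Γ k ≤ Q.card * (8 * min k (Γ.card - 1 - k) + 5) +
        S.card * (4 * min k (Γ.card - 1 - k) + 2)) ∧
    ((∀ o ∈ Q, ∀ l ∈ Γ, height l o.1 ≠ o.2) → (∀ τ ∈ S, ∀ l ∈ Γ, l.1 ≠ τ) →
      (∀ l ∈ Γ, ∀ m ∈ Γ, l.1 ≠ m.1 →
        (∃ o ∈ Q, PointSeparates o l m) ∨ ∃ τ ∈ S, SlopeSeparates τ l m) →
      complexity Γ k ≤ (2 * Q.card + S.card) * (2 * min k (Γ.card - 1 - k) + 1)) := by
  intro Γ k Q S
  refine ⟨pencils Γ k Q S, fun hQ hS h => ?_⟩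
  refine (cover ∅ Q S hQ hS ?_).trans (le_of_eq ?_)
  · rintro p l m ⟨hl, hm, hlm, hlp, hmp, -, -⟩
    exact Or.inr (h l hl m hm (slope_ne hlm hlp hmp))
  · rw [Finset.card_empty]
    ring

end Pool.Agent.Results.MP_a08d0a_co.FewPencils
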