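import Pool.Agent.Y375.FD.Upper

/-! Vertices of a level at which two lines separated by a given point meet. -/

set_option autoImplicit false

namespace Pool.Agent.R769.KP

open KLev.Levels Pool.Agent.Y375.FD

/-- the vertices of the `k`-level at which the chain passes between two lines separated by `o` -/
def Sep (Γ : Finset (ℝ × ℝ)) (k : ℕ) (o : ℝ × ℝ) : Set (ℝ × ℝ) :=
  {p | ∃ l m, V Γ k p l m ∧ ((height l o.1 < o.2 ∧ o.2 < height m o.1) ∨
    (height m o.1 < o.2 ∧ o.2 < height l o.1))}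

/-- the projective map of the lines -/
def tl (o : ℝ × ℝ) (j : ℝ × ℝ) : ℝ × ℝ := (height j o.1 - o.2, j.1)

/-- the projective map of the points -/
noncomputable def tp (o : ℝ × ℝ) (p : ℝ × ℝ) : ℝ × ℝ := (1 / (p.1 - o.1), (p.2 - o.2) / (p.1 - o.1))

lemma tl_inj (o : ℝ × ℝ) : Function.Injective (tl o) := by
  intro l m h
  unfold tl height at h
  rw [Prod.mk.injEq] at h
  refine Prod.ext h.2 ?_
  have h1 := h.1
  rw [h.2] at h1
  linarith

lemma height_tl {o p : ℝ × ℝ} (h : o.1 < p.1) (j : ℝ × ℝ) :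
    height (tl o j) (tp o p).1 = (height j p.1 - o.2) / (p.1 - o.1) := by
  have h' : p.1 - o.1 ≠ 0 := by
    have : 0 < p.1 - o.1 := by linarith
    exact this.ne'
  unfold tl tp height
  simp only
  field_simp
  ring

lemma below_tl {o p : ℝ × ℝ} (h : o.1 < p.1) (j : ℝ × ℝ) :
    height (tl o j) (tp o p).1 < (tp o p).2 ↔ height j p.1 < p.2 := by
  rw [height_tl h]
  unfold tp
  simp only
  have : 0 < p.1 - o.1 := by linarith
  rw [div_lt_div_iff_of_pos_right this]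
  constructor
  · intro h; linarith
  · intro h; linarith

lemma on_tl {o p : ℝ × ℝ} (h : o.1 < p.1) (j : ℝ × ℝ) :
    height (tl o j) (tp o p).1 = (tp o p).2 ↔ height j p.1 = p.2 := by
  rw [height_tl h]
  unfold tp
  simp only
  have : p.1 - o.1 ≠ 0 := by
    have : 0 < p.1 - o.1 := by linarith
    exact this.ne'
  rw [div_left_inj' this]
  constructor
  · intro h; linarith
  · intro h; linarith

lemma slope_tl {o p : ℝ × ℝ} (h : o.1 < p.1) {i j : ℝ × ℝ} (hi : height i p.1 = p.2)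
    (hj : height j p.1 = p.2) : (tl o i).1 < (tl o j).1 ↔ j.1 < i.1 := by
  unfold tl
  simp only
  unfold height at hi hj ⊢
  have h0 : 0 < p.1 - o.1 := by linarith
  have e : (j.1 * o.1 + j.2 - o.2) - (i.1 * o.1 + i.2 - o.2) = (i.1 - j.1) * (p.1 - o.1) := by
    linear_combination hj - hi
  constructor
  · intro h1
    by_contra hcon
    push Not at hcon
    have : (i.1 - j.1) * (p.1 - o.1) ≤ 0 := mul_nonpos_of_nonpos_of_nonneg (by linarith) h0.le
    linarith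
  · intro h1
    have : 0 < (i.1 - j.1) * (p.1 - o.1) := mul_pos (by linarith) h0
    linarith

lemma V_tl {Γ : Finset (ℝ × ℝ)} {k : ℕ} {o p l m : ℝ × ℝ} (h : o.1 < p.1) (hV : V Γ k p l m) :
    V (Γ.image (tl o)) k (tp o p) (tl o m) (tl o l) := by
  classical
  obtain ⟨hl, hm, hlm, hlp, hmp, hL, hR⟩ := hV
  refine ⟨Finset.mem_image_of_mem _ hm, Finset.mem_image_of_mem _ hl,
    fun h => hlm (tl_inj o h).symm, (on_tl h m).mpr hmp, (on_tl h l).mpr hlp, ?_, ?_⟩
  · have e : LS (Γ.image (tl o)) (tp o p) (tl o m).1 = (RS Γ p m.1).image (tl o) := by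
      ext j'
      unfold LS RS
      simp only [Finset.mem_filter, Finset.mem_image]
      constructor
      · rintro ⟨⟨j, hj, rfl⟩, h1⟩
        refine ⟨j, ⟨hj, ?_⟩, rfl⟩
        rcases h1 with h1 | ⟨h1, h2⟩
        · exact Or.inl ((below_tl h j).mp h1)
        · have h3 := (on_tl h j).mp h1
          exact Or.inr ⟨h3, (slope_tl h hmp h3).mp h2⟩
      · rintro ⟨j, ⟨hj, h1⟩, rfl⟩
        refine ⟨⟨j, hj, rfl⟩, ?_⟩
        rcases h1 with h1 | ⟨h1, h2⟩
        · exact Or.inl ((below_tl h j).mpr h1)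
        · exact Or.inr ⟨(on_tl h j).mpr h1, (slope_tl h hmp h1).mpr h2⟩
    rw [e, Finset.card_image_of_injective _ (tl_inj o), hR]
  · have e : RS (Γ.image (tl o)) (tp o p) (tl o l).1 = (LS Γ p l.1).image (tl o) := by
      ext j'
      unfold LS RS
      simp only [Finset.mem_filter, Finset.mem_image]
      constructor
      · rintro ⟨⟨j, hj, rfl⟩, h1⟩
        refine ⟨j, ⟨hj, ?_⟩, rfl⟩
        rcases h1 with h1 | ⟨h1, h2⟩
        · exact Or.inl ((below_tl h j).mp h1)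
        · have h3 := (on_tl h j).mp h1
          exact Or.inr ⟨h3, (slope_tl h h3 hlp).mp h2⟩
      · rintro ⟨j, ⟨hj, h1⟩, rfl⟩
        refine ⟨⟨j, hj, rfl⟩, ?_⟩
        rcases h1 with h1 | ⟨h1, h2⟩
        · exact Or.inl ((below_tl h j).mpr h1)
        · exact Or.inr ⟨(on_tl h j).mpr h1, (slope_tl h h1 hlp).mpr h2⟩
    rw [e, Finset.card_image_of_injective _ (tl_inj o), hL]

lemma tp_inj {o p q : ℝ × ℝ} (hp : o.1 < p.1) (hq : o.1 < q.1) (h : tp o p = tp o q) : p = q := by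
  unfold tp at h
  rw [Prod.mk.injEq] at h
  have h1 : 0 < p.1 - o.1 := by linarith
  have h2 : 0 < q.1 - o.1 := by linarith
  have h3 : p.1 - o.1 = q.1 - o.1 := by
    have := h.1
    rw [div_eq_div_iff h1.ne' h2.ne'] at this
    linarith
  have h4 := h.2
  rw [h3, div_left_inj' h2.ne'] at h4
  exact Prod.ext (by linarith) (by linarith)

/-- the separated vertices to the right of the point -/
theorem right_card {Γ : Finset (ℝ × ℝ)} {k : ℕ} {o : ℝ × ℝ} (ho : ∀ j ∈ Γ, height j o.1 ≠ o.2) :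
    ({p ∈ Sep Γ k o | o.1 < p.1}).Finite ∧ ({p ∈ Sep Γ k o | o.1 < p.1}).ncard ≤ 2 * k + 1 := by
  classical
  have hτ : ∀ j ∈ Γ.image (tl o), j.1 ≠ 0 := by
    intro j' hj'
    obtain ⟨j, hj, rfl⟩ := Finset.mem_image.mp hj'
    unfold tl
    simp only
    intro h
    exact ho j hj (by linarith)
  obtain ⟨h1, h2⟩ := VT_card (k := k) hτ
  have hm : Set.MapsTo (tp o) {p ∈ Sep Γ k o | o.1 < p.1} (VT (Γ.image (tl o)) k 0) := by
    rintro p ⟨⟨l, m, hV, hs⟩, hp⟩
    refine ⟨tl o m, tl o l, V_tl hp hV, ?_⟩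
    unfold tl
    simp only
    rcases hs with ⟨h3, h4⟩ | ⟨h3, h4⟩
    · exact Or.inl ⟨by linarith, by linarith⟩
    · exact Or.inr ⟨by linarith, by linarith⟩
  have hi : Set.InjOn (tp o) {p ∈ Sep Γ k o | o.1 < p.1} := by
    rintro p ⟨-, hp⟩ q ⟨-, hq⟩ h
    exact tp_inj hp hq h
  exact ⟨Set.Finite.of_injOn hm hi h1, (Set.ncard_le_ncard_of_injOn _ hm hi h1).trans h2⟩

/-- mirror image of a line -/
def mr (j : ℝ × ℝ) : ℝ × ℝ := (-j.1, j.2)

lemma mr_inj : Function.Injective mr := by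
  intro l m h
  unfold mr at h
  rw [Prod.mk.injEq] at h
  exact Prod.ext (neg_injective h.1) h.2

lemma height_mr (j : ℝ × ℝ) (x : ℝ) : height (mr j) (-x) = height j x := by
  unfold height mr; ring

lemma V_mr {Γ : Finset (ℝ × ℝ)} {k : ℕ} {p l m : ℝ × ℝ} (hV : V Γ k p l m) :
    V (Γ.image mr) k (-p.1, p.2) (mr m) (mr l) := by
  classical
  obtain ⟨hl, hm, hlm, hlp, hmp, hL, hR⟩ := hV
  refine ⟨Finset.mem_image_of_mem _ hm, Finset.mem_image_of_mem _ hl,
    fun h => hlm (mr_inj h).symm, ?_, ?_, ?_, ?_⟩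
  · show height (mr m) (-p.1) = p.2
    rw [height_mr, hmp]
  · show height (mr l) (-p.1) = p.2
    rw [height_mr, hlp]
  · have e : LS (Γ.image mr) (-p.1, p.2) (mr m).1 = (RS Γ p m.1).image mr := by
      ext j'
      unfold LS RS
      simp only [Finset.mem_filter, Finset.mem_image]
      constructor
      · rintro ⟨⟨j, hj, rfl⟩, h1⟩
        rw [height_mr] at h1
        refine ⟨j, ⟨hj, ?_⟩, rfl⟩
        rcases h1 with h1 | ⟨h1, h2⟩
        · exact Or.inl h1
        · exact Or.inr ⟨h1, by unfold mr at h2; simp only at h2; linarith⟩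
      · rintro ⟨j, ⟨hj, h1⟩, rfl⟩
        refine ⟨⟨j, hj, rfl⟩, ?_⟩
        rw [height_mr]
        rcases h1 with h1 | ⟨h1, h2⟩
        · exact Or.inl h1
        · exact Or.inr ⟨h1, by unfold mr; simp only; linarith⟩
    rw [e, Finset.card_image_of_injective _ mr_inj, hR]
  · have e : RS (Γ.image mr) (-p.1, p.2) (mr l).1 = (LS Γ p l.1).image mr := by
      ext j'
      unfold LS RS
      simp only [Finset.mem_filter, Finset.mem_image]
      constructor
      · rintro ⟨⟨j, hj, rfl⟩, h1⟩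
        rw [height_mr] at h1
        refine ⟨j, ⟨hj, ?_⟩, rfl⟩
        rcases h1 with h1 | ⟨h1, h2⟩
        · exact Or.inl h1
        · exact Or.inr ⟨h1, by unfold mr at h2; simp only at h2; linarith⟩
      · rintro ⟨j, ⟨hj, h1⟩, rfl⟩
        refine ⟨⟨j, hj, rfl⟩, ?_⟩
        rw [height_mr]
        rcases h1 with h1 | ⟨h1, h2⟩
        · exact Or.inl h1
        · exact Or.inr ⟨h1, by unfold mr; simp only; linarith⟩
    rw [e, Finset.card_image_of_injective _ mr_inj, hL]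

/-- all separated vertices -/
theorem sep_card {Γ : Finset (ℝ × ℝ)} {k : ℕ} {o : ℝ × ℝ} (ho : ∀ j ∈ Γ, height j o.1 ≠ o.2) :
    (Sep Γ k o).Finite ∧ (Sep Γ k o).ncard ≤ 2 * (2 * k + 1) := by
  classical
  obtain ⟨h1, h2⟩ := right_card (k := k) ho
  have ho' : ∀ j ∈ Γ.image mr, height j ((-o.1, o.2) : ℝ × ℝ).1 ≠ ((-o.1, o.2) : ℝ × ℝ).2 := by
    intro j' hj'
    obtain ⟨j, hj, rfl⟩ := Finset.mem_image.mp hj'
    show height (mr j) (-o.1) ≠ o.2
    rw [height_mr]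
    exact ho j hj
  obtain ⟨h3, h4⟩ := right_card (k := k) ho'
  have hm : Set.MapsTo (fun p : ℝ × ℝ => (-p.1, p.2)) {p ∈ Sep Γ k o | p.1 < o.1}
      {p ∈ Sep (Γ.image mr) k (-o.1, o.2) | ((-o.1, o.2) : ℝ × ℝ).1 < p.1} := by
    rintro p ⟨⟨l, m, hV, hs⟩, hp⟩
    refine ⟨⟨mr m, mr l, V_mr hV, ?_⟩, ?_⟩
    · show (height (mr m) (-o.1) < o.2 ∧ o.2 < height (mr l) (-o.1)) ∨
        (height (mr l) (-o.1) < o.2 ∧ o.2 < height (mr m) (-o.1))
      rw [height_mr, height_mr]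
      exact hs.symm
    · show -o.1 < -p.1
      have : p.1 < o.1 := hp
      linarith
  have hi : Set.InjOn (fun p : ℝ × ℝ => (-p.1, p.2)) {p ∈ Sep Γ k o | p.1 < o.1} := by
    rintro p - q - h
    simp only [Prod.mk.injEq] at h
    exact Prod.ext (neg_injective h.1) h.2
  have hf : ({p ∈ Sep Γ k o | p.1 < o.1}).Finite := Set.Finite.of_injOn hm hi h3
  have hc : ({p ∈ Sep Γ k o | p.1 < o.1}).ncard ≤ 2 * k + 1 :=
    (Set.ncard_le_ncard_of_injOn _ hm hi h3).trans h4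
  have hsub : Sep Γ k o ⊆ {p ∈ Sep Γ k o | o.1 < p.1} ∪ {p ∈ Sep Γ k o | p.1 < o.1} := by
    intro p hp
    rcases lt_trichotomy o.1 p.1 with h | h | h
    · exact Or.inl ⟨hp, h⟩
    · exfalso
      obtain ⟨l, m, ⟨-, -, -, hlp, hmp, -, -⟩, hs⟩ := hp
      rw [← h] at hlp hmp
      rcases hs with ⟨h5, h6⟩ | ⟨h5, h6⟩
      · linarith
      · linarith
    · exact Or.inr ⟨hp, h⟩
  refine ⟨(h1.union hf).subset hsub, ?_⟩
  calc (Sep Γ k o).ncard ≤ _ := Set.ncard_le_ncard hsub (h1.union hf)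
    _ ≤ _ := Set.ncard_union_le _ _
    _ ≤ _ := by omega

/-- both bounds -/
theorem sep_min {Γ : Finset (ℝ × ℝ)} {k : ℕ} {o : ℝ × ℝ} (ho : ∀ j ∈ Γ, height j o.1 ≠ o.2) :
    (Sep Γ k o).Finite ∧ (Sep Γ k o).ncard ≤ 2 * (2 * min k (Γ.card - 1 - k) + 1) := by
  classical
  obtain ⟨h1, h2⟩ := sep_card (k := k) ho
  refine ⟨h1, ?_⟩
  have ho' : ∀ j ∈ Γ.image refl, height j ((o.1, -o.2) : ℝ × ℝ).1 ≠ ((o.1, -o.2) : ℝ × ℝ).2 := by
    intro j' hj'
    obtain ⟨j, hj, rfl⟩ := Finset.mem_image.mp hj'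
    show height (refl j) o.1 ≠ -o.2
    rw [height_refl]
    intro h
    exact ho j hj (by linarith)
  obtain ⟨h3, h4⟩ := sep_card (k := Γ.card - 1 - k) ho'
  have h5 : (Sep Γ k o).ncard ≤ (Sep (Γ.image refl) (Γ.card - 1 - k) (o.1, -o.2)).ncard := by
    apply Set.ncard_le_ncard_of_injOn (fun p => (p.1, -p.2)) _ _ h3
    · rintro p ⟨l, m, hV, hs⟩
      refine ⟨refl l, refl m, V_refl hV, ?_⟩
      show (height (refl l) o.1 < -o.2 ∧ -o.2 < height (refl m) o.1) ∨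
        (height (refl m) o.1 < -o.2 ∧ -o.2 < height (refl l) o.1)
      rw [height_refl, height_refl]
      rcases hs with ⟨h6, h7⟩ | ⟨h6, h7⟩
      · exact Or.inr ⟨by linarith, by linarith⟩
      · exact Or.inl ⟨by linarith, by linarith⟩
    · rintro p - q - h
      simp only [Prod.mk.injEq] at h
      exact Prod.ext h.1 (neg_injective h.2)
  rcases Nat.le_total k (Γ.card - 1 - k) with h | h
  · rw [min_eq_left h]; exact h2
  · rw [min_eq_right h]; exact h5.trans h4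

/-- both bounds for slopes -/
theorem vt_min {Γ : Finset (ℝ × ℝ)} {k : ℕ} {τ : ℝ} (hτ : ∀ j ∈ Γ, j.1 ≠ τ) :
    (VT Γ k τ).Finite ∧ (VT Γ k τ).ncard ≤ 2 * min k (Γ.card - 1 - k) + 1 := by
  classical
  obtain ⟨h1, h2⟩ := VT_card (k := k) hτ
  refine ⟨h1, ?_⟩
  have hτ' : ∀ j ∈ Γ.image refl, j.1 ≠ -τ := by
    intro j' hj'
    obtain ⟨j, hj, rfl⟩ := Finset.mem_image.mp hj'
    show -j.1 ≠ -τ
    intro h
    exact hτ j hj (neg_injective h)
  obtain ⟨h3, h4⟩ := VT_card (k := Γ.card - 1 - k) hτ'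
  have h5 : (VT Γ k τ).ncard ≤ (VT (Γ.image refl) (Γ.card - 1 - k) (-τ)).ncard := by
    apply Set.ncard_le_ncard_of_injOn (fun p => (p.1, -p.2)) _ _ h3
    · rintro p ⟨l, m, hV, hs⟩
      refine ⟨refl l, refl m, V_refl hV, ?_⟩
      show (-m.1 < -τ ∧ -τ < -l.1) ∨ (-l.1 < -τ ∧ -τ < -m.1)
      rcases hs with ⟨h6, h7⟩ | ⟨h6, h7⟩
      · exact Or.inr ⟨by linarith, by linarith⟩
      · exact Or.inl ⟨by linarith, by linarith⟩
    · rintro p - q - h
      simp only [Prod.mk.injEq] at h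
      exact Prod.ext h.1 (neg_injective h.2)
  rcases Nat.le_total k (Γ.card - 1 - k) with h | h
  · rw [min_eq_left h]; exact h2
  · rw [min_eq_right h]; exact h5.trans h4

end Pool.Agent.R769.KP
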